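import Pool.Agent.Lib.helper18.Kak

set_option autoImplicit false

open Set Matrix Filter Topology
open scoped InnerProductSpace Pointwise

namespace Pool.Agent.Results.MP_f4a04c_gt.Stuck

/-- `(ρ, x)` is an `S`-copy in `K`: `ρ ∈ SO(3)` and `ρ(S) + x ⊆ K`. -/
def IsCopy (S K : Set (EuclideanSpace ℝ (Fin 3))) (ρ : Matrix (Fin 3) (Fin 3) ℝ)
    (x : EuclideanSpace ℝ (Fin 3)) : Prop :=
  ρ ∈ specialOrthogonalGroup (Fin 3) ℝ ∧ (fun v => toEuclideanLin ρ v + x) '' S ⊆ K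

/-- The Kakeya rotation property of `S ⊆ ℝ³`: in every convex `S`-Kakeya body `K`, any two
`S`-copies can be rotated into each other within `K`. -/
def KakeyaRotation (S : Set (EuclideanSpace ℝ (Fin 3))) : Prop :=
  ∀ K : Set (EuclideanSpace ℝ (Fin 3)), Convex ℝ K → IsCompact K → K.Nonempty →
    (∀ ρ ∈ specialOrthogonalGroup (Fin 3) ℝ, ∃ x, IsCopy S K ρ x) →
    ∀ ρ₀ x₀ ρ₁ x₁, IsCopy S K ρ₀ x₀ → IsCopy S K ρ₁ x₁ →
      ∃ (γ : ℝ → Matrix (Fin 3) (Fin 3) ℝ) (δ : ℝ → EuclideanSpace ℝ (Fin 3)),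
        ContinuousOn γ (Icc 0 1) ∧ ContinuousOn δ (Icc 0 1) ∧ γ 0 = ρ₀ ∧ δ 0 = x₀ ∧
        γ 1 = ρ₁ ∧ δ 1 = x₁ ∧ ∀ t ∈ Icc (0 : ℝ) 1, IsCopy S K (γ t) (δ t)

open H18Kak in
theorem result : ∃ S : Set (EuclideanSpace ℝ (Fin 3)),
    Convex ℝ S ∧ IsCompact S ∧ S.Nonempty ∧ ¬ KakeyaRotation S := by
  have iso : ∀ A ∈ specialOrthogonalGroup (Fin 3) ℝ, ∃ L : E3 ≃ₗᵢ[ℝ] E3,
      ∀ v, L v = toEuclideanLin A v := fun A hA => by
    have h : Aᵀ * A = 1 := (mem_orthogonalGroup_iff' _ _).1 (mem_specialOrthogonalGroup_iff.1 hA).1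
    refine ⟨LinearIsometry.toLinearIsometryEquiv ⟨toEuclideanLin A, fun v => ?_⟩ rfl, fun v => rfl⟩
    have : A *ᵥ v.ofLp ⬝ᵥ A *ᵥ v.ofLp = v.ofLp ⬝ᵥ v.ofLp := by
      rw [dotProduct_mulVec, vecMul_mulVec, h, vecMul_one]
    rw [EuclideanSpace.norm_eq, EuclideanSpace.norm_eq]
    congr 1
    simpa [dotProduct, sq] using this
  have cp : ∀ (X : Set E3) (r : ℝ), IsClosed X → (∀ x ∈ X, ‖x‖ ≤ r) → IsCompact X :=
    fun X r h1 h2 => Metric.isCompact_of_isClosed_isBounded h1 (isBounded_iff_forall_norm_le.2 ⟨r, h2⟩)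
  have nc : ∀ (x y : E3) (a b r : ℝ), 0 ≤ a → 0 ≤ b → a + b = 1 → ‖x‖ ≤ r → ‖y‖ ≤ r →
      ‖a • x + b • y‖ ≤ r := fun x y a b r ha hb hab hx hy => mem_closedBall_zero_iff.1
    (convex_closedBall 0 r (mem_closedBall_zero_iff.2 hx) (mem_closedBall_zero_iff.2 hy) ha hb hab)
  have S0 : S.Nonempty := ⟨_, add_mem_add (show 0 ∈ D from ⟨by simp, fun n i j _ => by
    rw [inner_zero_left]
    nlinarith [ep0 n, ep1 n]⟩) (smul_mem_smul_set (subset_convexHull ℝ _ ⟨0, rfl⟩))⟩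
  have ka : ∀ ρ ∈ specialOrthogonalGroup (Fin 3) ℝ, ∃ x, IsCopy S K ρ x := fun ρ h => by
    obtain ⟨L, hL⟩ := iso ρ h
    obtain ⟨x, hx⟩ := fit L
    exact ⟨x, h, by
      rintro _ ⟨s, hs, rfl⟩
      simpa only [hL] using hx s hs⟩
  refine ⟨S, Convex.add (fun x hx y hy a b ha hb hab => ⟨nc _ _ _ _ _ ha hb hab hx.1 hy.1,
    fun n i j h => ?_⟩) ((convex_convexHull _ _).smul _), (cp D 1 ?_ fun x hx => hx.1).add
    ((finite_range w).isCompact_convexHull ℝ |>.smul _), S0, fun h => ?_⟩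
  · rw [inner_add_left, real_inner_smul_left, real_inner_smul_left]
    nlinarith [mul_le_mul_of_nonneg_left (hx.2 n i j h) ha, mul_le_mul_of_nonneg_left (hy.2 n i j h) hb]
  · simp only [D, setOf_and, setOf_forall]
    exact (isClosed_le (by fun_prop) (by fun_prop)).inter (isClosed_iInter fun _ => isClosed_iInter
      fun _ => isClosed_iInter fun _ => isClosed_iInter fun _ => isClosed_le (by fun_prop) (by fun_prop))
  obtain ⟨x₀, h0⟩ := ka 1 (one_mem _)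
  obtain ⟨x₁, h1⟩ := ka !![-1, 0, 0; 0, -1, 0; 0, 0, 1] (by
    rw [mem_specialOrthogonalGroup_iff, mem_orthogonalGroup_iff]
    refine ⟨?_, by simp [det_fin_three]⟩
    ext i j
    fin_cases i <;> fin_cases j <;> simp [mul_apply, Fin.sum_univ_three])
  obtain ⟨γ, δ, cγ, cδ, g0, -, g1, -, hc⟩ := h K (fun x hx y hy a b ha hb hab =>
    ⟨nc _ _ _ _ _ ha hb hab hx.1 hy.1, fun i => by
      rw [inner_add_left, real_inner_smul_left, real_inner_smul_left]
      nlinarith [mul_le_mul_of_nonneg_left (hx.2.1 i) ha, mul_le_mul_of_nonneg_left (hy.2.1 i) hb],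
    fun n i j h => by
      rw [inner_add_left, real_inner_smul_left, real_inner_smul_left]
      have u := add_le_add (mul_le_mul_of_nonneg_left (hx.2.2 n i j h) ha)
        (mul_le_mul_of_nonneg_left (hy.2.2 n i j h) hb)
      refine u.trans_eq ?_
      simp only [PiLp.add_apply, PiLp.smul_apply, smul_eq_mul]
      obtain rfl : b = 1 - a := by linarith
      ring⟩) (cp K 20 (by
    simp only [K, setOf_and, setOf_forall]
    exact (isClosed_le (by fun_prop) (by fun_prop)).inter ((isClosed_iInter fun _ =>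
      isClosed_le (by fun_prop) (by fun_prop)).inter (isClosed_iInter fun _ => isClosed_iInter
      fun _ => isClosed_iInter fun _ => isClosed_iInter fun _ =>
        isClosed_le (by fun_prop) (by fun_prop)))) fun x hx => hx.1)
    ((S0.image _).mono h0.2) ka _ _ _ _ h0 h1
  let r : ℝ → ℝ := fun t => ‖fun k => toEuclideanLin (γ t) (w k) - w k‖
  have cr : ContinuousOn r (Icc 0 1) :=
    (show Continuous fun A : Matrix (Fin 3) (Fin 3) ℝ => ‖fun k => toEuclideanLin A (w k) - w k‖ by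
      simp only [toEuclideanLin, toLpLin_apply]
      fun_prop).comp_continuousOn cγ
  have fo : ∀ t ∈ Icc (0 : ℝ) 1, ∀ n, r t = 2 * ep n → 1 ≤ (-1) ^ n * δ t 2 := fun t ht n e => by
    obtain ⟨L, hL⟩ := iso _ (hc t ht).1
    obtain ⟨i, hi⟩ : ∃ i, 2 * ep n ≤ ‖L (w i) - w i‖ := by
      by_contra! hh
      exact e.not_lt ((pi_norm_lt_iff (by linarith [ep0 n])).2 fun i => hL _ ▸ hh i)
    exact force L _ n (fun k => e ▸ hL _ ▸ norm_le_pi_norm (fun k => toEuclideanLin (γ t) (w k) - w k) k)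
      i hi fun s hs => (hc t ht).2 ⟨s, hs, by simp only [hL]⟩
  have cZ : IsCompact (Icc 0 1 ∩ r ⁻¹' {0}) :=
    isCompact_Icc.of_isClosed_subset (cr.preimage_isClosed_of_isClosed isClosed_Icc isClosed_singleton)
      inter_subset_left
  obtain ⟨t₀, ⟨m0, r0⟩, hm⟩ := cZ.exists_isGreatest ⟨0, by simp, by simp [r, g0]⟩
  have t1 : t₀ < 1 := m0.2.lt_of_ne fun e => by
    have := congrArg (fun v : E3 => v 0) (congrFun (norm_eq_zero.1 r0) 0)
    simp [e, g1, w, toEuclideanLin] at this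
    norm_num at this
  obtain ⟨η, η0, hη⟩ := Metric.continuousWithinAt_iff.1 (cδ t₀ m0) 1 one_pos
  obtain ⟨u, u0, u1⟩ := exists_between (lt_min t1 (lt_add_of_pos_right t₀ η0))
  rw [lt_min_iff] at u1
  have sub : Icc t₀ u ⊆ Icc 0 1 := Icc_subset_Icc m0.1 u1.1.le
  have ru : 0 < r u := (norm_nonneg _).lt_of_ne fun e => (hm ⟨sub ⟨u0.le, le_rfl⟩, e.symm⟩).not_gt u0
  obtain ⟨N, hN⟩ := exists_pow_lt_of_lt_one (half_pos ru) (show (1 / 8000 : ℝ) < 1 by norm_num)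
  have fin : ∀ n, N ≤ n → 0 < (-1) ^ n * δ t₀ 2 := fun n hn => by
    have : ep n ≤ (1 / 8000) ^ N := pow_le_pow_of_le_one (by norm_num) (by norm_num) (by omega)
    obtain ⟨t, ht, e⟩ := intermediate_value_Icc u0.le (cr.mono sub)
      (show 2 * ep n ∈ _ from ⟨r0.trans_le (by linarith [ep0 n]), by linarith⟩)
    have d := hη (sub ht) (by rw [Real.dist_eq, abs_lt]; constructor <;> linarith [ht.1, ht.2])
    have c : |(-1) ^ n * (δ t - δ t₀) 2| < 1 := by
      rw [abs_mul, abs_pow, abs_neg, abs_one, one_pow, one_mul]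
      exact (co _).trans_lt (dist_eq_norm (δ t) _ ▸ d)
    rw [PiLp.sub_apply] at c
    linarith [fo t (sub ht) n e, (abs_lt.1 c).2]
  have := fin (N + 1) N.le_succ
  rw [pow_succ] at this
  linarith [fin N le_rfl]

end Pool.Agent.Results.MP_f4a04c_gt.Stuck
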